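import Pool.Agent.J4H20.TR.Stm

/-!
# TR2, piece IND: independence modulo squares and the sign, from a test prime
-/

set_option autoImplicit false

namespace Pool.Agent.J4H15.TR

open Polynomial NumberField Pool.Agent.W289.CG Pool.Agent.J4H20.TR

/-- in a field, if `a * b` and `b ≠ 0` are squares, so is `a` -/
theorem sq_of_mul {F : Type} [Field F] {a b : F} (hb0 : b ≠ 0) (hb : IsSquare b)
    (hab : IsSquare (a * b)) : IsSquare a := by
  have h := hab.div hb
  rwa [mul_div_assoc, div_self hb0, mul_one] at h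

/-- a product of integral powers of quotients with a common denominator -/
theorem prod_div_zpow {K : Type} [Field K] {k : ℕ} (u : Fin k → K) (w : K) (hw : w ≠ 0)
    (e : Fin k → ℤ) :
    ∏ j, (u j / w) ^ e j = (∏ j, u j ^ e j) * w ^ (-∑ j, e j) := by
  have h1 : ∀ s : Finset (Fin k), ∏ j ∈ s, w ^ e j = w ^ (∑ j ∈ s, e j) := by
    intro s
    classical
    induction s using Finset.induction_on with
    | empty => simp
    | insert a s ha ih =>
      rw [Finset.prod_insert ha, Finset.sum_insert ha, ih, zpow_add₀ hw]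
  have h2 : ∏ j, (u j / w) ^ e j = (∏ j, u j ^ e j) / ∏ j, w ^ e j := by
    rw [← Finset.prod_div_distrib]
    exact Finset.prod_congr rfl fun j _ => div_zpow _ _ _
  rw [h2, h1, zpow_neg, div_eq_mul_inv]

theorem t_IND : TaskRed → S_IND := by
  intro hred n k D K _ _ θ c M q _ i x hT hemb hne e y hy
  obtain ⟨φ, z, hφ, hz⟩ := hemb
  set E : Fin (k + 2) → ℤ :=
    Fin.snoc (α := fun _ => ℤ) (Fin.snoc (α := fun _ => ℤ) e 0) (-∑ j, e j) with hE
  have E1 : ∀ j : Fin k, E j.castSucc.castSucc = e j := by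
    intro j
    simp [hE]
  have E2 : E (Fin.last k).castSucc = 0 := by
    simp [hE]
  have E3 : E (Fin.last (k + 1)) = -∑ j, e j := by
    simp [hE]
  have hw : θ - (D.a (Fin.last (k + 1)) : K) ≠ 0 := hne _
  have hprod : ∏ j : Fin (k + 2), (θ - (D.a j : K)) ^ E j =
      ∏ j : Fin k, ((θ - (D.a j.castSucc.castSucc : K)) /
        (θ - (D.a (Fin.last (k + 1)) : K))) ^ e j := by
    rw [prod_div_zpow _ _ hw, Fin.prod_univ_castSucc, Fin.prod_univ_castSucc, E2, E3]
    simp only [E1, zpow_zero, mul_one]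
  have hxne : ∀ j, ((x : ℤ) : ZMod q) ≠ (D.a j : ZMod q) := by
    intro j h
    apply hT.ne j
    push_cast
    rw [h, sub_self]
  have hpar : ∀ j, ((2 : ℕ) : ℤ) ∣ E j - (((E j).natAbs : ℕ) : ℤ) := by
    intro j
    omega
  obtain ⟨y', hy'⟩ := hred K q 2 (k + 2) θ D.a φ z (x : ZMod q) Nat.prime_two hφ hz hxne E
    (fun j => (E j).natAbs) y hpar (by rw [hprod]; exact hy)
  have hneg : IsSquare (-1 : ZMod q) := by
    rw [ZMod.exists_sq_eq_neg_one_iff]
    have := hT.one
    omega
  have hsq : IsSquare (∏ j, ((x : ZMod q) - (D.a j : ZMod q)) ^ (E j).natAbs) := by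
    rcases hy' with h | h
    · rw [h]
      exact ⟨y', by ring⟩
    · rw [h]
      obtain ⟨t, ht⟩ := hneg
      exact ⟨t * y', by linear_combination y' ^ 2 * ht⟩
  set i' : Fin (k + 2) := i.castSucc.castSucc with hi'
  have hcast : ∀ j, ((x - D.a j : ℤ) : ZMod q) = (x : ZMod q) - (D.a j : ZMod q) := by
    intro j
    push_cast
    ring
  have hfac : ∀ j, j ≠ i' → IsSquare (((x : ZMod q) - (D.a j : ZMod q)) ^ (E j).natAbs) := by
    intro j hj
    by_cases hjk : j = (Fin.last k).castSucc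
    · rw [hjk, E2]
      simp
    · apply IsSquare.pow
      rw [← hcast]
      rw [hT.sym j]
      push Not
      exact ⟨hj, hjk⟩
  have hrest : IsSquare (∏ j ∈ Finset.univ.erase i',
      ((x : ZMod q) - (D.a j : ZMod q)) ^ (E j).natAbs) := by
    apply Finset.prod_induction _ IsSquare (fun a b ha hb => ha.mul hb) ⟨1, by simp⟩
    intro j hj
    exact hfac j (Finset.ne_of_mem_erase hj)
  have hrest0 : ∏ j ∈ Finset.univ.erase i',
      ((x : ZMod q) - (D.a j : ZMod q)) ^ (E j).natAbs ≠ 0 := by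
    rw [Finset.prod_ne_zero_iff]
    intro j _
    apply pow_ne_zero
    rw [← hcast]
    exact hT.ne j
  have hone : IsSquare (((x : ZMod q) - (D.a i' : ZMod q)) ^ (E i').natAbs) := by
    apply sq_of_mul hrest0 hrest
    rw [Finset.mul_prod_erase Finset.univ
      (fun j => ((x : ZMod q) - (D.a j : ZMod q)) ^ (E j).natAbs) (Finset.mem_univ i')]
    exact hsq
  have hnsq : ¬ IsSquare ((x : ZMod q) - (D.a i' : ZMod q)) := by
    rw [← hcast, hT.sym i']
    intro h
    exact h (Or.inl hi')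
  have hx0 : (x : ZMod q) - (D.a i' : ZMod q) ≠ 0 := by
    rw [← hcast]
    exact hT.ne i'
  rw [← E1 i]
  by_contra hodd
  have hodd' : Odd (E i').natAbs := by
    rw [← Nat.not_even_iff_odd, even_iff_two_dvd]
    intro h
    apply hodd
    have h2 : ((2 : ℕ) : ℤ) ∣ (((E i').natAbs : ℕ) : ℤ) := Int.natCast_dvd_natCast.mpr h
    rw [Int.dvd_natAbs] at h2
    exact h2
  obtain ⟨t, ht⟩ := hodd'
  rw [ht, pow_succ, mul_comm] at hone
  exact hnsq (sq_of_mul (pow_ne_zero _ hx0) ⟨((x : ZMod q) - (D.a i' : ZMod q)) ^ t, by ring⟩ hone)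

end Pool.Agent.J4H15.TR
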